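import Pool.Agent.Helper33.DP3.Sheet

/-!
# CR: the rounding of a constant vector (MP_fcb106_co, version 3)
-/

set_option autoImplicit false

namespace Pool.Agent.Helper31.PL

open Finset Pool.Agent.Helper33.DP Pool.Agent.Helper33.DP3

theorem CR3 : ST_CR := by
  intro w n m C S y hC hn hSC hsum hy
  have hn0 : (0 : ℝ) < n := by exact_mod_cast hn
  set q : ℕ := m / n with hq
  set r : ℕ := m % n with hr
  have hmqr : m = n * q + r := (Nat.div_add_mod m n).symm
  have hrn : r < n := Nat.mod_lt m hn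
  have hfrac : (m : ℝ) / n = q + r / n := by
    rw [hmqr]
    push_cast
    field_simp
  have hr0 : (0 : ℝ) ≤ (r : ℝ) / n := by positivity
  have hr1 : (r : ℝ) / n < 1 := by
    rw [div_lt_one hn0]
    exact_mod_cast hrn
  have hlow : ∀ x ∈ C, (0 : ℝ) ≤ (y x : ℝ) - q := by
    intro x hx
    have h := hy x hx
    rw [hfrac, abs_lt] at h
    have h1 : (q : ℝ) < y x + 1 := by linarith [h.1]
    have h2 : q < y x + 1 := by exact_mod_cast h1
    have h3 : (q : ℝ) ≤ y x := by exact_mod_cast Nat.lt_succ_iff.mp h2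
    linarith
  have hupp : ∀ x ∈ C, (y x : ℝ) - q ≤ 1 := by
    intro x hx
    have h := hy x hx
    rw [hfrac, abs_lt] at h
    have h1 : (y x : ℝ) < q + 2 := by linarith [h.2]
    have h2 : y x < q + 2 := by exact_mod_cast h1
    have h3 : y x ≤ q + 1 := by omega
    have h4 : (y x : ℝ) ≤ q + 1 := by exact_mod_cast h3
    linarith
  have hCr : ∑ x ∈ C, ((y x : ℝ) - q) = r := by
    rw [Finset.sum_sub_distrib, Finset.sum_const, hC, nsmul_eq_mul]
    have : (∑ x ∈ C, (y x : ℝ)) = m := by exact_mod_cast hsum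
    rw [this, hmqr]
    push_cast
    ring
  have hSn : S.card ≤ n := by
    rw [← hC]
    exact Finset.card_le_card hSC
  have hSn' : (S.card : ℝ) ≤ n := by exact_mod_cast hSn
  have e1 : ∑ x ∈ S, ((y x : ℝ) - q) ≤ S.card := by
    calc ∑ x ∈ S, ((y x : ℝ) - q) ≤ ∑ x ∈ S, (1 : ℝ) :=
          Finset.sum_le_sum fun x hx => hupp x (hSC hx)
      _ = S.card := by simp
  have e2 : ∑ x ∈ S, ((y x : ℝ) - q) ≤ r := by
    rw [← hCr]
    exact Finset.sum_le_sum_of_subset_of_nonneg hSC fun x hx _ => hlow x hx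
  have e3 : ∑ x ∈ S, ((y x : ℝ) - m / n) = ∑ x ∈ S, ((y x : ℝ) - q) - S.card * (r / n) := by
    rw [hfrac, Finset.sum_sub_distrib, Finset.sum_sub_distrib, Finset.sum_const, Finset.sum_const,
      nsmul_eq_mul, nsmul_eq_mul]
    ring
  rw [e3]
  have hj0 : (0 : ℝ) ≤ S.card := Nat.cast_nonneg _
  have key : ∀ t : ℝ, t * n - S.card * r ≤ S.card * (n - S.card) →
      ∑ x ∈ S, ((y x : ℝ) - q) ≤ t →
      ∑ x ∈ S, ((y x : ℝ) - q) - S.card * (r / n) ≤ S.card * (n - S.card : ℝ) / n := by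
    intro t ht hle
    rw [le_div_iff₀ hn0]
    have h1 : (∑ x ∈ S, ((y x : ℝ) - q) - S.card * (r / n)) * n =
        (∑ x ∈ S, ((y x : ℝ) - q)) * n - S.card * r := by
      field_simp
    rw [h1]
    have h2 : (∑ x ∈ S, ((y x : ℝ) - q)) * n ≤ t * n := mul_le_mul_of_nonneg_right hle hn0.le
    linarith
  rcases le_total (S.card : ℝ) r with h | h
  · refine key S.card ?_ e1
    nlinarith
  · refine key r ?_ e2
    nlinarith

end Pool.Agent.Helper31.PL
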