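import Pool.Agent.Helper33.DP.Sheet

/-!
# ERS, ERSR: the step of the error estimate (MP_fcb106_co)

Both are proved in a stronger form, with `1 ≤ E * p` instead of `1 ≤ E * p ^ 2`
(`ers_core`, `ERS1`, `ERSR1`).
-/

set_option autoImplicit false

namespace Pool.Agent.Helper31.PL

open Finset Pool.Agent.Helper33.DP

variable {w : ℕ}

/-- The error functional is symmetric. -/
theorem errLe_transpose {δ : Fin w → Fin w → ℝ} {E : ℝ} (h : ErrLe δ E) :
    ErrLe (fun a b => δ b a) E := by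
  intro q v
  have h1 := h v q
  have h2 : ∑ a, ∑ b, q a * δ b a * v b = ∑ a, ∑ b, v a * δ a b * q b := by
    rw [Finset.sum_comm]
    exact Finset.sum_congr rfl fun b _ => Finset.sum_congr rfl fun a _ => by ring
  show |∑ a, ∑ b, q a * δ b a * v b| ≤ _
  rw [h2]
  refine h1.trans (le_of_eq ?_)
  ring

/-- The rounding term is paid by the drop of the potential. -/
theorem round_term (P : Fin w → ℝ) (ν v : Fin w → ℝ) (p E : ℝ) (hp : 0 ≤ p) (hE : 1 ≤ E * p)
    (hP : ∀ x, 0 ≤ P x) (hP1 : ∑ x, P x = 1) (hν : ∀ x, |ν x| ≤ 1)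
    (hs : ∀ x, ν x ≠ 0 → p ≤ P x) (h0 : ∑ x, ν x = 0) :
    |∑ x, ν x * v x| ≤ E * ∑ x, ∑ y, P x * P y * |v x - v y| := by
  have hE0 : 0 ≤ E := by
    by_contra hneg
    push Not at hneg
    nlinarith [mul_nonneg (neg_nonneg.mpr hneg.le) hp]
  have h1 : ∀ y, |∑ x, ν x * v x| ≤ E * ∑ x, P x * |v x - v y| := by
    intro y
    have e : ∑ x, ν x * v x = ∑ x, ν x * (v x - v y) := by
      have : ∑ x, ν x * (v x - v y) = ∑ x, ν x * v x - (∑ x, ν x) * v y := by
        rw [Finset.sum_mul, ← Finset.sum_sub_distrib]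
        exact Finset.sum_congr rfl fun x _ => by ring
      rw [this, h0]; ring
    rw [e]
    refine (Finset.abs_sum_le_sum_abs _ _).trans ?_
    rw [Finset.mul_sum]
    refine Finset.sum_le_sum fun x _ => ?_
    rw [abs_mul]
    by_cases hx : ν x = 0
    · rw [hx, abs_zero, zero_mul]
      exact mul_nonneg hE0 (mul_nonneg (hP x) (abs_nonneg _))
    · have h2 : 1 ≤ E * P x := hE.trans (mul_le_mul_of_nonneg_left (hs x hx) hE0)
      calc |ν x| * |v x - v y| ≤ 1 * |v x - v y| :=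
            mul_le_mul_of_nonneg_right (hν x) (abs_nonneg _)
        _ ≤ (E * P x) * |v x - v y| := mul_le_mul_of_nonneg_right h2 (abs_nonneg _)
        _ = E * (P x * |v x - v y|) := by ring
  have h2 : |∑ x, ν x * v x| = ∑ y, P y * |∑ x, ν x * v x| := by
    rw [← Finset.sum_mul, hP1, one_mul]
  rw [h2]
  calc ∑ y, P y * |∑ x, ν x * v x| ≤ ∑ y, P y * (E * ∑ x, P x * |v x - v y|) :=
        Finset.sum_le_sum fun y _ => mul_le_mul_of_nonneg_left (h1 y) (hP y)
    _ = E * ∑ x, ∑ y, P x * P y * |v x - v y| := by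
        rw [Finset.sum_comm, Finset.mul_sum]
        refine Finset.sum_congr rfl fun y _ => ?_
        rw [Finset.mul_sum, Finset.mul_sum, Finset.mul_sum]
        exact Finset.sum_congr rfl fun x _ => by ring

/-- The potential `Phi` drops under mixing. -/
theorem phi_drop (P : Fin w → Fin w → ℝ) (v : Fin w → ℝ) (hP : ∀ x b, 0 ≤ P x b)
    (hrow : ∀ x, ∑ b, P x b = 1) (hcol : ∀ b, ∑ x, P x b = 1) :
    Phi (fun b => ∑ x, P x b * v x) ≤
      Phi v - ∑ b, ∑ x, ∑ y, P x b * P y b * |v x - v y| := by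
  have h1 : ∀ b c, |(∑ x, P x b * v x) - ∑ y, P y c * v y| ≤
      ∑ x, ∑ y, P x b * P y c * |v x - v y| := by
    intro b c
    have e : (∑ x, P x b * v x) - ∑ y, P y c * v y = ∑ x, ∑ y, P x b * P y c * (v x - v y) := by
      have e1 : ∑ x, ∑ y, P x b * P y c * (v x - v y) =
          ∑ x, (P x b * v x * (∑ y, P y c) - P x b * (∑ y, P y c * v y)) := by
        refine Finset.sum_congr rfl fun x _ => ?_
        rw [Finset.mul_sum, Finset.mul_sum, ← Finset.sum_sub_distrib]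
        exact Finset.sum_congr rfl fun y _ => by ring
      rw [e1, hcol c, Finset.sum_sub_distrib, ← Finset.sum_mul, ← Finset.sum_mul, hcol b]
      simp
    rw [e]
    refine (Finset.abs_sum_le_sum_abs _ _).trans (Finset.sum_le_sum fun x _ => ?_)
    refine (Finset.abs_sum_le_sum_abs _ _).trans (Finset.sum_le_sum fun y _ => ?_)
    rw [abs_mul, abs_of_nonneg (mul_nonneg (hP x b) (hP y c))]
  set T : Fin w → Fin w → ℝ := fun b c => ∑ x, ∑ y, P x b * P y c * |v x - v y| with hT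
  have h2 : ∀ b c, |(∑ x, P x b * v x) - ∑ y, P y c * v y| ≤
      T b c - (if c = b then T b b else 0) := by
    intro b c
    by_cases h : c = b
    · subst h
      simp
    · rw [if_neg h, sub_zero]
      exact h1 b c
  have h3 : Phi (fun b => ∑ x, P x b * v x) ≤ ∑ b, ∑ c, (T b c - (if c = b then T b b else 0)) :=
    Finset.sum_le_sum fun b _ => Finset.sum_le_sum fun c _ => h2 b c
  refine h3.trans (le_of_eq ?_)
  have h4 : ∑ b, ∑ c, T b c = Phi v := by
    have e1 : ∀ b, ∑ c, T b c = ∑ x, ∑ y, P x b * |v x - v y| := by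
      intro b
      simp only [hT]
      rw [Finset.sum_comm]
      refine Finset.sum_congr rfl fun x _ => ?_
      rw [Finset.sum_comm]
      refine Finset.sum_congr rfl fun y _ => ?_
      rw [← Finset.sum_mul, ← Finset.mul_sum, hrow y, mul_one]
    rw [Finset.sum_congr rfl fun b _ => e1 b, Finset.sum_comm]
    refine Finset.sum_congr rfl fun x _ => ?_
    rw [Finset.sum_comm]
    refine Finset.sum_congr rfl fun y _ => ?_
    rw [← Finset.sum_mul, hrow x, one_mul]
  have h5 : ∀ b, ∑ c, (T b c - (if c = b then T b b else 0)) = (∑ c, T b c) - T b b := by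
    intro b
    rw [Finset.sum_sub_distrib, Finset.sum_ite_eq' univ b, if_pos (Finset.mem_univ b)]
  rw [Finset.sum_congr rfl fun b _ => h5 b, Finset.sum_sub_distrib, h4]

/-- The sum of the absolute values does not grow under mixing. -/
theorem nrm_mix (P : Fin w → Fin w → ℝ) (v : Fin w → ℝ) (hP : ∀ x b, 0 ≤ P x b)
    (hrow : ∀ x, ∑ b, P x b = 1) : nrm (fun b => ∑ x, P x b * v x) ≤ nrm v := by
  calc nrm (fun b => ∑ x, P x b * v x) ≤ ∑ b, ∑ x, P x b * |v x| := by
        refine Finset.sum_le_sum fun b _ => ?_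
        refine (Finset.abs_sum_le_sum_abs _ _).trans (Finset.sum_le_sum fun x _ => ?_)
        rw [abs_mul, abs_of_nonneg (hP x b)]
    _ = nrm v := by
        rw [Finset.sum_comm]
        refine Finset.sum_congr rfl fun x _ => ?_
        rw [← Finset.sum_mul, hrow x, one_mul]

theorem nrm_nonneg (v : Fin w → ℝ) : 0 ≤ nrm v := Finset.sum_nonneg fun _ _ => abs_nonneg _

theorem Phi_nonneg (v : Fin w → ℝ) : 0 ≤ Phi v :=
  Finset.sum_nonneg fun _ _ => Finset.sum_nonneg fun _ _ => abs_nonneg _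

/-- The step of the error estimate, without graphs. -/
theorem ers_core (P δ : Fin w → Fin w → ℝ) (ν : Fin w → Fin w → Fin w → ℝ) (p E : ℝ)
    (hp : 0 ≤ p) (hE : 1 ≤ E * p) (hP : ∀ x b, 0 ≤ P x b) (hrow : ∀ x, ∑ b, P x b = 1)
    (hcol : ∀ b, ∑ x, P x b = 1) (hδ : ErrLe δ E) (hν : ∀ a x b, |ν a x b| ≤ 1)
    (hs : ∀ a x b, ν a x b ≠ 0 → p ≤ P x b) (h0 : ∀ a b, ∑ x, ν a x b = 0) :
    ErrLe (fun a x => ∑ b, δ a b * P x b + ∑ b, ν a x b) E := by
  have hE0 : 0 ≤ E := by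
    by_contra hneg
    push Not at hneg
    nlinarith [mul_nonneg (neg_nonneg.mpr hneg.le) hp]
  intro q v
  set v' : Fin w → ℝ := fun b => ∑ x, P x b * v x with hv'
  set R : ℝ := ∑ b, ∑ x, ∑ y, P x b * P y b * |v x - v y| with hR
  have e : ∑ a, ∑ x, q a * (∑ b, δ a b * P x b + ∑ b, ν a x b) * v x =
      (∑ a, ∑ b, q a * δ a b * v' b) + ∑ a, q a * ∑ b, ∑ x, ν a x b * v x := by
    rw [← Finset.sum_add_distrib]
    refine Finset.sum_congr rfl fun a _ => ?_
    have e1 : ∀ x, q a * (∑ b, δ a b * P x b + ∑ b, ν a x b) * v x =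
        (∑ b, q a * δ a b * (P x b * v x)) + q a * ∑ b, ν a x b * v x := by
      intro x
      have f1 : ∑ b, q a * δ a b * (P x b * v x) = q a * (∑ b, δ a b * P x b) * v x := by
        rw [Finset.mul_sum, Finset.sum_mul]
        exact Finset.sum_congr rfl fun b _ => by ring
      have f2 : ∑ b, ν a x b * v x = (∑ b, ν a x b) * v x := by
        rw [Finset.sum_mul]
      rw [f1, f2]; ring
    rw [Finset.sum_congr rfl fun x _ => e1 x, Finset.sum_add_distrib]
    congr 1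
    · rw [Finset.sum_comm]
      refine Finset.sum_congr rfl fun b _ => ?_
      rw [hv', Finset.mul_sum]
    · rw [← Finset.mul_sum, Finset.sum_comm]
  have b1 : |∑ a, ∑ b, q a * δ a b * v' b| ≤ E * (nrm q * (Phi v - R) + Phi q * nrm v) := by
    refine (hδ q v').trans (mul_le_mul_of_nonneg_left ?_ hE0)
    exact add_le_add (mul_le_mul_of_nonneg_left (phi_drop P v hP hrow hcol) (nrm_nonneg q))
      (mul_le_mul_of_nonneg_left (nrm_mix P v hP hrow) (Phi_nonneg q))
  have b2 : |∑ a, q a * ∑ b, ∑ x, ν a x b * v x| ≤ nrm q * (E * R) := by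
    refine (Finset.abs_sum_le_sum_abs _ _).trans ?_
    rw [nrm, Finset.sum_mul]
    refine Finset.sum_le_sum fun a _ => ?_
    rw [abs_mul]
    refine mul_le_mul_of_nonneg_left ?_ (abs_nonneg _)
    refine (Finset.abs_sum_le_sum_abs _ _).trans ?_
    rw [hR, Finset.mul_sum]
    refine Finset.sum_le_sum fun b _ => ?_
    exact round_term (fun x => P x b) (fun x => ν a x b) v p E hp hE (fun x => hP x b) (hcol b)
      (fun x => hν a x b) (fun x => hs a x b) (h0 a b)
  show |∑ a, ∑ x, q a * (∑ b, δ a b * P x b + ∑ b, ν a x b) * v x| ≤ _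
  rw [e]
  refine (abs_add_le _ _).trans ((add_le_add b1 b2).trans (le_of_eq ?_))
  ring

/-- ERS with `1 ≤ E * p`. -/
theorem ERS1 (G₂ : Gr w) (P δ : Fin w → Fin w → ℝ) (ν : Fin w → Fin w → Fin w → ℝ) (p E : ℝ)
    (hp : 0 ≤ p) (hE : 1 ≤ E * p) (hP : DS G₂ P) (hpP : ∀ x b, (x, b) ∈ G₂ → p ≤ P x b)
    (hδ : ErrLe δ E) (hν : ∀ a x b, |ν a x b| ≤ 1) (hs : ∀ a x b, (x, b) ∉ G₂ → ν a x b = 0)
    (h0 : ∀ a b, ∑ x, ν a x b = 0) :
    ErrLe (fun a x => ∑ b, δ a b * P x b + ∑ b, ν a x b) E :=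
  ers_core P δ ν p E hp hE hP.nonneg hP.row hP.col hδ hν
    (fun a x b h => hpP x b (by by_contra hn; exact h (hs a x b hn))) h0

/-- ERSR with `1 ≤ E * p`. -/
theorem ERSR1 (G₁ : Gr w) (Q δ : Fin w → Fin w → ℝ) (ν : Fin w → Fin w → Fin w → ℝ) (p E : ℝ)
    (hp : 0 ≤ p) (hE : 1 ≤ E * p) (hQ : DS G₁ Q) (hpQ : ∀ a x, (a, x) ∈ G₁ → p ≤ Q a x)
    (hδ : ErrLe δ E) (hν : ∀ a x b, |ν a x b| ≤ 1) (hs : ∀ a x b, (a, x) ∉ G₁ → ν a x b = 0)
    (h0 : ∀ a b, ∑ x, ν a x b = 0) :
    ErrLe (fun x b => ∑ a, Q a x * δ a b + ∑ a, ν a x b) E := by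
  have h := ers_core (fun x b => Q b x) (fun a b => δ b a) (fun a x b => ν b x a) p E hp hE
    (fun x b => hQ.nonneg b x) (fun x => hQ.col x) (fun b => hQ.row b) (errLe_transpose hδ)
    (fun a x b => hν b x a)
    (fun a x b h => hpQ b x (by by_contra hn; exact h (hs b x a hn))) (fun a b => h0 b a)
  have h2 := errLe_transpose h
  refine fun q v => ?_
  have h3 := h2 q v
  have e : ∀ x b, (∑ a, Q a x * δ a b + ∑ a, ν a x b) =
      (∑ a, δ a b * Q a x + ∑ a, ν a x b) := by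
    intro x b
    congr 1
    exact Finset.sum_congr rfl fun a _ => mul_comm _ _
  simpa only [e] using h3

theorem one_le_of_sq (G : Gr w) (P : Fin w → Fin w → ℝ) (p E : ℝ) (hw : 0 < w)
    (hP : DS G P) (hpP : ∀ x b, (x, b) ∈ G → p ≤ P x b) (hp : 0 ≤ p) (hE : 1 ≤ E * p ^ 2) :
    1 ≤ E * p := by
  have hp1 : p ≤ 1 := by
    let x : Fin w := ⟨0, hw⟩
    obtain ⟨b, hb⟩ : ∃ b, P x b ≠ 0 := by
      by_contra hn
      push Not at hn
      have := hP.row x
      rw [Finset.sum_eq_zero fun b _ => hn b] at this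
      exact zero_ne_one this
    have hmem : (x, b) ∈ G := by
      by_contra hn
      exact hb (hP.supp x b hn)
    refine (hpP x b hmem).trans ?_
    rw [← hP.row x]
    exact Finset.single_le_sum (f := fun b => P x b) (fun c _ => hP.nonneg x c) (Finset.mem_univ b)
  have hE0 : 0 ≤ E := by
    by_contra hneg
    push Not at hneg
    nlinarith [mul_nonneg (neg_nonneg.mpr hneg.le) (sq_nonneg p)]
  refine hE.trans (mul_le_mul_of_nonneg_left ?_ hE0)
  nlinarith

/-- Everything is trivial for `w = 0`. -/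
theorem errLe_zero (δ : Fin 0 → Fin 0 → ℝ) (E : ℝ) : ErrLe δ E := by
  intro q v
  simp [nrm, Phi]

theorem ERS : ST_ERS := by
  intro w G₂ P δ ν p E hp hE hP hpP hδ hν hs h0
  rcases Nat.eq_zero_or_pos w with rfl | hw
  · exact errLe_zero _ _
  · exact ERS1 G₂ P δ ν p E hp (one_le_of_sq G₂ P p E hw hP hpP hp hE) hP hpP hδ hν hs h0

theorem ERSR : ST_ERSR := by
  intro w G₁ Q δ ν p E hp hE hQ hpQ hδ hν hs h0
  rcases Nat.eq_zero_or_pos w with rfl | hw
  · exact errLe_zero _ _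
  · exact ERSR1 G₁ Q δ ν p E hp (one_le_of_sq G₁ Q p E hw hQ hpQ hp hE) hQ hpQ hδ hν hs h0

end Pool.Agent.Helper31.PL
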