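import Mathlib

/-!
# Integral mixing of one row with feedback (second round of MP_fcb106_co, POLY)

A row of integral masses `m` follows a real reference `r` within `g (|S|)` on every set `S` of
places, `g j = c j (k - j)`.  The reference is mixed by a doubly stochastic matrix `P`; then the
integral masses can be moved along the support of `P`, with prescribed minimal amounts `l`, so that
the new masses follow the new reference within the same bounds.
-/

set_option autoImplicit false

namespace Pool.Agent.Helper31.PL

open Finset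

/-- The allowed error on a set of size `j` of `k` places. -/
def gg (c : ℝ) (k j : ℕ) : ℝ := c * j * (k - j)

theorem gg_zero (c : ℝ) (k : ℕ) : gg c k 0 = 0 := by simp [gg]

theorem gg_self (c : ℝ) (k : ℕ) : gg c k k = 0 := by simp [gg]

theorem gg_compl (c : ℝ) {k j : ℕ} (h : j ≤ k) : gg c k (k - j) = gg c k j := by
  simp only [gg]
  rw [Nat.cast_sub h]
  ring

section
variable {X B : Type*} [Fintype X] [Fintype B] [DecidableEq X] [DecidableEq B]

/-- The set of admissible integral routings. -/
def Adm (P : X → B → ℝ) (m : B → ℕ) (l : X → B → ℕ) (z : X → B → ℕ) : Prop :=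
  (∀ x b, l x b ≤ z x b) ∧ (∀ x b, P x b = 0 → z x b = 0) ∧ ∀ b, ∑ x, z x b = m b

theorem adm_finite (P : X → B → ℝ) (m : B → ℕ) (l : X → B → ℕ) :
    {z | Adm P m l z}.Finite := by
  classical
  refine Set.Finite.subset
    (Set.Finite.pi' (t := fun _ : X => {f : B → ℕ | ∀ b, f b ≤ m b}) fun x => ?_) ?_
  · refine Set.Finite.subset (Set.Finite.pi' (t := fun b : B => {n : ℕ | n ≤ m b}) fun b => ?_) ?_
    · exact Set.finite_Iic (m b)
    · intro f hf b
      exact hf b
  · rintro z ⟨-, -, h3⟩ x b
    rw [← h3 b]
    exact Finset.single_le_sum (f := fun x => z x b) (fun _ _ => Nat.zero_le _) (Finset.mem_univ x)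

/-- **Lemma F.** -/
theorem feedback (c θ r0 : ℝ) (k : ℕ) (hX : Fintype.card X = k) (hB : Fintype.card B = k)
    (hc : 1 ≤ c) (hθ0 : 0 ≤ θ) (hθ1 : θ ≤ 1) (hr0 : c * k ≤ θ * r0)
    (P : X → B → ℝ) (hP : ∀ x b, 0 ≤ P x b) (hrow : ∀ x, ∑ b, P x b = 1)
    (hcol : ∀ b, ∑ x, P x b = 1)
    (r : B → ℝ) (hr : ∀ b, r0 ≤ r b) (m : B → ℕ)
    (hm : ∀ S : Finset B, |∑ b ∈ S, ((m b : ℝ) - r b)| ≤ gg c k S.card)
    (l : X → B → ℕ) (hl : ∀ x b, (l x b : ℝ) ≤ (1 - θ) * P x b * r b) :
    ∃ z : X → B → ℕ, (∀ x b, l x b ≤ z x b) ∧ (∀ x b, P x b = 0 → z x b = 0) ∧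
      (∀ b, ∑ x, z x b = m b) ∧
      ∀ S : Finset X, |∑ x ∈ S, (((∑ b, z x b : ℕ) : ℝ) - ∑ b, P x b * r b)| ≤ gg c k S.card := by
  classical
  have hc0 : 0 < c := by linarith
  -- the masses are at least the minimal amounts
  have hml : ∀ b, ∑ x, l x b ≤ m b := by
    intro b
    have h1 : ((∑ x, l x b : ℕ) : ℝ) ≤ (1 - θ) * r b := by
      push_cast
      calc ∑ x, (l x b : ℝ) ≤ ∑ x, (1 - θ) * P x b * r b := Finset.sum_le_sum fun x _ => hl x b
        _ = (1 - θ) * r b * ∑ x, P x b := by
            rw [Finset.mul_sum]; exact Finset.sum_congr rfl fun x _ => by ring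
        _ = (1 - θ) * r b := by rw [hcol b, mul_one]
    have h2 : |(m b : ℝ) - r b| ≤ gg c k 1 := by
      have := hm {b}
      simpa using this
    have h3 : gg c k 1 ≤ θ * r b := by
      have hk1 : (1 : ℝ) ≤ k := by
        have : 1 ≤ k := by
          rw [← hB]; exact Fintype.card_pos_iff.mpr ⟨b⟩
        exact_mod_cast this
      have e : gg c k 1 = c * (k - 1) := by simp [gg]
      rw [e]
      calc c * ((k : ℝ) - 1) ≤ c * k := by nlinarith
        _ ≤ θ * r0 := hr0
        _ ≤ θ * r b := mul_le_mul_of_nonneg_left (hr b) hθ0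
    have h4 := (abs_le.mp h2).1
    have h5 : ((∑ x, l x b : ℕ) : ℝ) ≤ (m b : ℝ) := by nlinarith
    exact_mod_cast h5
  -- the set of admissible routings is finite and nonempty
  have hne : ∃ z, Adm P m l z := by
    have hx : ∀ b, ∃ x, P x b ≠ 0 := by
      intro b
      by_contra hn
      push Not at hn
      have := hcol b
      rw [Finset.sum_eq_zero fun x _ => hn x] at this
      exact zero_ne_one this
    choose x0 hx0 using hx
    refine ⟨fun x b => l x b + if x = x0 b then m b - ∑ y, l y b else 0, ?_, ?_, ?_⟩
    · intro x b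
      exact Nat.le_add_right _ _
    · intro x b hxb
      have h1 : l x b = 0 := by
        have := hl x b
        rw [hxb] at this
        have h2 : (l x b : ℝ) ≤ 0 := by simpa using this
        exact_mod_cast le_antisymm h2 (Nat.cast_nonneg _)
      have h2 : x ≠ x0 b := by
        rintro rfl
        exact hx0 b hxb
      simp [h1, h2]
    · intro b
      rw [Finset.sum_add_distrib, Finset.sum_ite_eq' univ (x0 b)]
      simp only [Finset.mem_univ, if_true]
      exact Nat.add_sub_cancel' (hml b)
  -- the errors of a routing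
  let y : (X → B → ℕ) → X → ℝ := fun z x => ((∑ b, z x b : ℕ) : ℝ) - ∑ b, P x b * r b
  obtain ⟨z, hz, hmin⟩ : ∃ z, Adm P m l z ∧ ∀ z', Adm P m l z' →
      ∑ x, y z x ^ 2 ≤ ∑ x, y z' x ^ 2 := by
    obtain ⟨z, hz, hmin⟩ := Set.exists_min_image {z | Adm P m l z} (fun z => ∑ x, y z x ^ 2)
      (adm_finite P m l) hne
    exact ⟨z, hz, fun z' h => hmin z' h⟩
  obtain ⟨hz1, hz2, hz3⟩ := hz
  -- the total error vanishes
  have htot : ∑ x, y z x = 0 := by
    have h1 : ∑ x, y z x = ∑ b, ((m b : ℝ) - r b) := by
      simp only [y]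
      rw [Finset.sum_sub_distrib, Finset.sum_sub_distrib]
      congr 1
      · push_cast
        rw [Finset.sum_comm]
        refine Finset.sum_congr rfl fun b _ => ?_
        rw [← hz3 b]
        push_cast
        rfl
      · rw [Finset.sum_comm]
        refine Finset.sum_congr rfl fun b _ => ?_
        rw [← Finset.sum_mul, hcol b, one_mul]
    have h2 := hm Finset.univ
    rw [Finset.card_univ, hB, gg_self] at h2
    rw [h1]
    exact abs_nonpos_iff.mp h2
  -- the exchange argument
  have hex : ∀ x x' b, l x b < z x b → P x' b ≠ 0 → y z x - y z x' ≤ 1 := by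
    intro x x' b h1 h2
    by_contra hcon
    push Not at hcon
    have hne' : x ≠ x' := by
      rintro rfl
      linarith [sub_self (y z x)]
    let z' : X → B → ℕ := fun u d => if d = b then
      (if u = x then z x b - 1 else if u = x' then z x' b + 1 else z u b) else z u d
    have hzx : 1 ≤ z x b := by omega
    have hz'x : ∀ d, (z' x d : ℝ) = z x d - if d = b then 1 else 0 := by
      intro d
      by_cases hd : d = b
      · subst hd
        simp only [z', if_true]
        rw [Nat.cast_sub hzx]
        simp
      · simp [z', hd]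
    have hz'x' : ∀ d, (z' x' d : ℝ) = z x' d + if d = b then 1 else 0 := by
      intro d
      by_cases hd : d = b
      · subst hd
        simp [z', hne'.symm]
      · simp [z', hd]
    have hz'u : ∀ u, u ≠ x → u ≠ x' → ∀ d, z' u d = z u d := by
      intro u hu hu' d
      by_cases hd : d = b
      · subst hd
        simp [z', hu, hu']
      · simp [z', hd]
    have hadm : Adm P m l z' := by
      refine ⟨?_, ?_, ?_⟩
      · intro u d
        by_cases hd : d = b
        · subst hd
          by_cases hu : u = x
          · subst hu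
            simp only [z', if_true]
            omega
          · by_cases hu' : u = x'
            · subst hu'
              simp only [z', if_true, if_neg hu]
              exact (hz1 u d).trans (Nat.le_succ _)
            · rw [hz'u u hu hu' d]
              exact hz1 u d
        · simp only [z', if_neg hd]
          exact hz1 u d
      · intro u d hud
        by_cases hd : d = b
        · subst hd
          by_cases hu : u = x
          · subst hu
            have := hz2 u d hud
            simp only [z', if_true]
            omega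
          · by_cases hu' : u = x'
            · subst hu'
              exact absurd hud h2
            · rw [hz'u u hu hu' d]
              exact hz2 u d hud
        · simp only [z', if_neg hd]
          exact hz2 u d hud
      · intro d
        by_cases hd : d = b
        · subst hd
          have hreal : (∑ u, (z' u d : ℝ)) = ∑ u, (z u d : ℝ) := by
            have h3 : ∀ u, (z' u d : ℝ) = z u d - (if u = x then 1 else 0) +
                (if u = x' then 1 else 0) := by
              intro u
              by_cases hu : u = x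
              · subst hu
                rw [hz'x d]
                simp [hne']
              · by_cases hu' : u = x'
                · subst hu'
                  rw [hz'x' d]
                  simp [hu]
                · rw [hz'u u hu hu' d]
                  simp [hu, hu']
            rw [Finset.sum_congr rfl fun u _ => h3 u, Finset.sum_add_distrib,
              Finset.sum_sub_distrib, Finset.sum_ite_eq' univ x, Finset.sum_ite_eq' univ x']
            simp
          have h4 : ∑ u, z' u d = ∑ u, z u d := by exact_mod_cast hreal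
          rw [h4, hz3 d]
        · rw [← hz3 d]
          refine Finset.sum_congr rfl fun u _ => ?_
          simp only [z', if_neg hd]
    have hyx : y z' x = y z x - 1 := by
      simp only [y]
      push_cast
      rw [Finset.sum_congr rfl fun d _ => hz'x d, Finset.sum_sub_distrib,
        Finset.sum_ite_eq' univ b]
      simp only [Finset.mem_univ, if_true]
      ring
    have hyx' : y z' x' = y z x' + 1 := by
      simp only [y]
      push_cast
      rw [Finset.sum_congr rfl fun d _ => hz'x' d, Finset.sum_add_distrib,
        Finset.sum_ite_eq' univ b]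
      simp only [Finset.mem_univ, if_true]
      ring
    have hyu : ∀ u, u ≠ x → u ≠ x' → y z' u = y z u := by
      intro u hu hu'
      simp only [y]
      rw [Finset.sum_congr rfl fun d _ => hz'u u hu hu' d]
    have hlt : ∑ u, y z' u ^ 2 < ∑ u, y z u ^ 2 := by
      have e1 : ∀ f : X → ℝ, ∑ u, f u = f x + f x' + ∑ u ∈ (univ.erase x).erase x', f u := by
        intro f
        rw [← Finset.add_sum_erase univ f (Finset.mem_univ x),
          ← Finset.add_sum_erase (univ.erase x) f
            (Finset.mem_erase.mpr ⟨hne'.symm, Finset.mem_univ x'⟩)]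
        ring
      rw [e1, e1 (fun u => y z u ^ 2), hyx, hyx']
      have e2 : ∑ u ∈ (univ.erase x).erase x', y z' u ^ 2 =
          ∑ u ∈ (univ.erase x).erase x', y z u ^ 2 := by
        refine Finset.sum_congr rfl fun u hu => ?_
        rw [Finset.mem_erase, Finset.mem_erase] at hu
        rw [hyu u hu.2.1 hu.1]
      rw [e2]
      nlinarith
    exact absurd (hmin z' hadm) (not_le.mpr hlt)
  -- the upper bounds
  have hup : ∀ S : Finset X, ∑ x ∈ S, y z x ≤ gg c k S.card := by
    obtain ⟨S, -, hS⟩ := Finset.exists_max_image (Finset.univ : Finset (Finset X))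
      (fun S => ∑ x ∈ S, y z x - gg c k S.card) ⟨∅, Finset.mem_univ _⟩
    suffices hfin : ∑ x ∈ S, y z x - gg c k S.card ≤ 0 by
      intro T
      have := hS T (Finset.mem_univ _)
      linarith
    by_contra hpos
    push Not at hpos
    have hcardS : S.card ≤ k := by rw [← hX]; exact Finset.card_le_univ S
    have hgap : ∀ x ∈ S, ∀ x', x' ∉ S → 1 < y z x - y z x' := by
      intro x hx x' hx'
      have h1 := hS (S.erase x) (Finset.mem_univ _)
      have h2 := hS (insert x' S) (Finset.mem_univ _)
      rw [Finset.card_erase_of_mem hx] at h1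
      rw [Finset.sum_insert hx', Finset.card_insert_of_notMem hx'] at h2
      have h3 := Finset.add_sum_erase S (y z) hx
      have hs1 : 1 ≤ S.card := Finset.card_pos.mpr ⟨x, hx⟩
      simp only [gg] at h1 h2
      rw [Nat.cast_sub hs1] at h1
      push_cast at h1 h2
      nlinarith
    -- the places which lead into `S` only
    set I : Finset B := univ.filter (fun b => ∀ x, P x b ≠ 0 → x ∈ S) with hI
    have hforce : ∀ b, b ∉ I → ∀ x ∈ S, z x b = l x b := by
      intro b hb x hx
      rw [hI, Finset.mem_filter] at hb
      push Not at hb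
      obtain ⟨x', hx', hx'S⟩ := hb (Finset.mem_univ b)
      by_contra hne'
      have hlt : l x b < z x b := lt_of_le_of_ne (hz1 x b) (Ne.symm hne')
      have := hex x x' b hlt hx'
      linarith [hgap x hx x' hx'S]
    have hPI : ∀ b ∈ I, ∑ x ∈ S, P x b = 1 := by
      intro b hb
      rw [hI, Finset.mem_filter] at hb
      rw [← hcol b]
      refine Finset.sum_subset (Finset.subset_univ S) fun x _ hx => ?_
      by_contra hne'
      exact hx (hb.2 x hne')
    have hPI2 : ∑ b ∈ Iᶜ, ∑ x ∈ S, P x b = (S.card : ℝ) - I.card := by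
      have h1 : ∑ b, ∑ x ∈ S, P x b = S.card := by
        rw [Finset.sum_comm, Finset.sum_congr rfl fun x _ => hrow x]
        simp
      have h2 : ∑ b ∈ I, ∑ x ∈ S, P x b = I.card := by
        rw [Finset.sum_congr rfl hPI]
        simp
      have h3 := Finset.sum_add_sum_compl I (fun b => ∑ x ∈ S, P x b)
      linarith
    have hIS : (I.card : ℝ) ≤ S.card := by
      have : 0 ≤ ∑ b ∈ Iᶜ, ∑ x ∈ S, P x b :=
        Finset.sum_nonneg fun b _ => Finset.sum_nonneg fun x _ => hP x b
      linarith
    -- the masses in `S`
    have hmass : ∑ x ∈ S, ((∑ b, z x b : ℕ) : ℝ) =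
        (∑ b ∈ I, (m b : ℝ)) + ∑ b ∈ Iᶜ, ∑ x ∈ S, (l x b : ℝ) := by
      push_cast
      rw [Finset.sum_comm, ← Finset.sum_add_sum_compl I]
      congr 1
      · refine Finset.sum_congr rfl fun b hb => ?_
        rw [← hz3 b]
        push_cast
        refine Finset.sum_subset (Finset.subset_univ S) fun x _ hx => ?_
        rw [hI, Finset.mem_filter] at hb
        have : P x b = 0 := by
          by_contra hne'
          exact hx (hb.2 x hne')
        rw [hz2 x b this, Nat.cast_zero]
      · refine Finset.sum_congr rfl fun b hb => Finset.sum_congr rfl fun x hx => ?_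
        rw [hforce b (Finset.mem_compl.mp hb) x hx]
    have href : ∑ x ∈ S, ∑ b, P x b * r b =
        (∑ b ∈ I, r b) + ∑ b ∈ Iᶜ, (∑ x ∈ S, P x b) * r b := by
      rw [Finset.sum_comm, ← Finset.sum_add_sum_compl I]
      congr 1
      · refine Finset.sum_congr rfl fun b hb => ?_
        rw [← Finset.sum_mul, hPI b hb, one_mul]
      · exact Finset.sum_congr rfl fun b _ => (Finset.sum_mul _ _ _).symm
    have hlow : ∑ b ∈ Iᶜ, ∑ x ∈ S, (l x b : ℝ) ≤
        ∑ b ∈ Iᶜ, (∑ x ∈ S, P x b) * r b - θ * r0 * ((S.card : ℝ) - I.card) := by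
      rw [← hPI2, Finset.mul_sum, ← Finset.sum_sub_distrib]
      refine Finset.sum_le_sum fun b _ => ?_
      calc ∑ x ∈ S, (l x b : ℝ) ≤ ∑ x ∈ S, (1 - θ) * P x b * r b :=
            Finset.sum_le_sum fun x _ => hl x b
        _ = (1 - θ) * r b * ∑ x ∈ S, P x b := by
            rw [Finset.mul_sum]; exact Finset.sum_congr rfl fun x _ => by ring
        _ ≤ (∑ x ∈ S, P x b) * r b - θ * r0 * ∑ x ∈ S, P x b := by
            have h1 : 0 ≤ ∑ x ∈ S, P x b := Finset.sum_nonneg fun x _ => hP x b
            have h2 : θ * r0 * ∑ x ∈ S, P x b ≤ θ * r b * ∑ x ∈ S, P x b :=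
              mul_le_mul_of_nonneg_right (mul_le_mul_of_nonneg_left (hr b) hθ0) h1
            nlinarith
    have hmI : ∑ b ∈ I, (m b : ℝ) ≤ ∑ b ∈ I, r b + gg c k I.card := by
      have := (abs_le.mp (hm I)).2
      rw [Finset.sum_sub_distrib] at this
      linarith
    have hkey : gg c k I.card - gg c k S.card ≤ θ * r0 * ((S.card : ℝ) - I.card) := by
      have e : gg c k I.card - gg c k S.card =
          c * ((S.card : ℝ) - I.card) * ((S.card : ℝ) + I.card - k) := by
        simp only [gg]; ring
      rw [e]
      have h1 : (S.card : ℝ) + I.card - k ≤ k := by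
        have h2 : (S.card : ℝ) ≤ k := by exact_mod_cast hcardS
        linarith
      have h3 : 0 ≤ c * ((S.card : ℝ) - I.card) := mul_nonneg hc0.le (by linarith)
      calc c * ((S.card : ℝ) - I.card) * ((S.card : ℝ) + I.card - k)
          ≤ c * ((S.card : ℝ) - I.card) * k := mul_le_mul_of_nonneg_left h1 h3
        _ = (c * k) * ((S.card : ℝ) - I.card) := by ring
        _ ≤ θ * r0 * ((S.card : ℝ) - I.card) := mul_le_mul_of_nonneg_right hr0 (by linarith)
    have hsum : ∑ x ∈ S, y z x = ∑ x ∈ S, ((∑ b, z x b : ℕ) : ℝ) - ∑ x ∈ S, ∑ b, P x b * r b := by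
      simp only [y]
      rw [Finset.sum_sub_distrib]
    rw [hsum, hmass, href] at hpos
    linarith
  refine ⟨z, hz1, hz2, hz3, fun S => abs_le.mpr ⟨?_, hup S⟩⟩
  have h1 := hup Sᶜ
  have h2 := Finset.sum_add_sum_compl S (y z)
  have hcardS : S.card ≤ k := by rw [← hX]; exact Finset.card_le_univ S
  rw [Finset.card_compl, hX, gg_compl c hcardS] at h1
  rw [htot] at h2
  have h3 : ∑ x ∈ S, y z x = -∑ x ∈ Sᶜ, y z x := by linarith
  show -(gg c k S.card) ≤ ∑ x ∈ S, y z x
  rw [h3]
  linarith

end

end Pool.Agent.Helper31.PL
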